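import Pool.Agent.Helper18.NF.StN

/-!
# Project NF, module NF-4: sums over ideals as sums over lattice points
-/

set_option autoImplicit false

open Finset Filter Topology NumberField Module MeasureTheory
open Pool.TP (idc)
open scoped nonZeroDivisors ArithmeticFunction.vonMangoldt Classical
open Pool.Agent.Helper18.NF Pool.Agent.Helper18.BV

namespace Pool.Agent.Helper24.NF

section
variable {K : Type} [Field K] [NumberField K]

theorem gen_ex (J I : (Ideal (𝓞 K))⁰) (h : ClassGroup.mk0 I = (ClassGroup.mk0 J)⁻¹) :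
    ∃ a : 𝓞 K, a ≠ 0 ∧ (I : Ideal (𝓞 K)) * J = Ideal.span {a} := by
  have h1 : ClassGroup.mk0 (I * J) = 1 := by
    rw [map_mul, h, inv_mul_cancel]
  have h2 : ((I * J : (Ideal (𝓞 K))⁰) : Ideal (𝓞 K)).IsPrincipal := by
    have := (ClassGroup.mk0_eq_one_iff (I := ((I * J : (Ideal (𝓞 K))⁰) : Ideal (𝓞 K)))
      (SetLike.coe_mem _)).1 h1
    exact this
  obtain ⟨a, ha⟩ := h2
  have ha' : (I : Ideal (𝓞 K)) * J = Ideal.span {a} := by
    simpa using ha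
  refine ⟨a, ?_, ha'⟩
  rintro rfl
  have h0 : ((I * J : (Ideal (𝓞 K))⁰) : Ideal (𝓞 K)) ≠ 0 := nonZeroDivisors.coe_ne_zero _
  apply h0
  rw [Submonoid.coe_mul, ha']
  simp

theorem ideal_ex (J : (Ideal (𝓞 K))⁰) (a : 𝓞 K) (ha : a ≠ 0) (haJ : a ∈ (J : Ideal (𝓞 K))) :
    ∃ I : (Ideal (𝓞 K))⁰, ClassGroup.mk0 I = (ClassGroup.mk0 J)⁻¹ ∧
      (I : Ideal (𝓞 K)) * J = Ideal.span {a} := by
  have h1 : (J : Ideal (𝓞 K)) ∣ Ideal.span {a} := Ideal.dvd_span_singleton.2 haJ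
  obtain ⟨I, hI⟩ := h1
  have hI0 : I ≠ 0 := by
    intro h
    rw [h, mul_zero] at hI
    exact ha (Ideal.span_singleton_eq_bot.1 hI)
  obtain ⟨I', hI'⟩ : ∃ I' : (Ideal (𝓞 K))⁰, (I' : Ideal (𝓞 K)) = I :=
    ⟨⟨I, mem_nonZeroDivisors_of_ne_zero hI0⟩, rfl⟩
  have h2 : (I' : Ideal (𝓞 K)) * J = Ideal.span {a} := by
    rw [hI', mul_comm, ← hI]
  refine ⟨I', ?_, h2⟩
  have h3 : ClassGroup.mk0 (I' * J) = 1 := by
    have h4 : ((I' * J : (Ideal (𝓞 K))⁰) : Ideal (𝓞 K)).IsPrincipal := by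
      rw [Submonoid.coe_mul, h2]
      exact ⟨a, rfl⟩
    exact (ClassGroup.mk0_eq_one_iff (I := ((I' * J : (Ideal (𝓞 K))⁰) : Ideal (𝓞 K)))
      (SetLike.coe_mem _)).2 h4
  rw [map_mul] at h3
  exact eq_inv_of_mul_eq_one_left h3

/-- The elements of the ideal `J` as multiples of generators by units. -/
theorem sum_ideal (J : (Ideal (𝓞 K))⁰) (F : ↥(J : Ideal (𝓞 K)) → ℂ) (h0 : F 0 = 0)
    (a : {I : (Ideal (𝓞 K))⁰ // ClassGroup.mk0 I = (ClassGroup.mk0 J)⁻¹} → 𝓞 K)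
    (ha0 : ∀ I, a I ≠ 0)
    (ha : ∀ I, ((I.1 : (Ideal (𝓞 K))⁰) : Ideal (𝓞 K)) * J = Ideal.span {a I})
    (hm : ∀ I (u : (𝓞 K)ˣ), (u : 𝓞 K) * a I ∈ (J : Ideal (𝓞 K)))
    (hfin : {x : {I : (Ideal (𝓞 K))⁰ // ClassGroup.mk0 I = (ClassGroup.mk0 J)⁻¹} × (𝓞 K)ˣ |
      F ⟨(x.2 : 𝓞 K) * a x.1, hm x.1 x.2⟩ ≠ 0}.Finite) :
    ∑ᶠ α : (J : Ideal (𝓞 K)), F α =
      ∑ᶠ I : {I : (Ideal (𝓞 K))⁰ // ClassGroup.mk0 I = (ClassGroup.mk0 J)⁻¹},
        ∑ᶠ u : (𝓞 K)ˣ, F ⟨(u : 𝓞 K) * a I, hm I u⟩ := by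
  set e : {I : (Ideal (𝓞 K))⁰ // ClassGroup.mk0 I = (ClassGroup.mk0 J)⁻¹} × (𝓞 K)ˣ →
    (J : Ideal (𝓞 K)) := fun x => ⟨(x.2 : 𝓞 K) * a x.1, hm x.1 x.2⟩ with he
  have hJ0 : (J : Ideal (𝓞 K)) ≠ 0 := nonZeroDivisors.coe_ne_zero _
  have hinj : Function.Injective e := by
    rintro ⟨I, u⟩ ⟨I', u'⟩ h
    have h1 : (u : 𝓞 K) * a I = (u' : 𝓞 K) * a I' := congrArg Subtype.val h
    have h2 : Ideal.span {a I} = Ideal.span {a I'} := by
      rw [Ideal.span_singleton_eq_span_singleton]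
      have h3 : Associated (a I) ((u : 𝓞 K) * a I) := (associated_isUnit_mul_right_iff u.isUnit).2
        (Associated.refl _)
      have h4 : Associated (a I') ((u' : 𝓞 K) * a I') :=
        (associated_isUnit_mul_right_iff u'.isUnit).2 (Associated.refl _)
      rw [h1] at h3
      exact h3.trans h4.symm
    have h5 : I = I' := by
      rw [← ha, ← ha] at h2
      exact Subtype.ext (Subtype.ext (mul_right_cancel₀ hJ0 h2))
    subst h5
    have h6 : (u : 𝓞 K) = (u' : 𝓞 K) := mul_right_cancel₀ (ha0 I) h1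
    rw [Units.ext h6]
  have hsurj : ∀ α : (J : Ideal (𝓞 K)), α ≠ 0 → α ∈ Set.range e := by
    intro α hα
    have hα0 : (α : 𝓞 K) ≠ 0 := by
      intro h
      exact hα (Subtype.ext h)
    obtain ⟨I, hI1, hI2⟩ := ideal_ex J (α : 𝓞 K) hα0 α.2
    have h3 := ha ⟨I, hI1⟩
    simp only at h3
    rw [hI2, Ideal.span_singleton_eq_span_singleton] at h3
    obtain ⟨u, hu⟩ := h3.symm
    refine ⟨(⟨I, hI1⟩, u), Subtype.ext ?_⟩
    simp only [he]
    rw [mul_comm]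
    exact hu
  have h1 : ∑ᶠ α : (J : Ideal (𝓞 K)), F α = ∑ᶠ α ∈ Set.range e, F α := by
    rw [← finsum_mem_univ]
    apply finsum_mem_inter_support_eq'
    intro α hα
    simp only [Set.mem_univ, true_iff]
    apply hsurj
    rintro rfl
    exact hα h0
  rw [h1, finsum_mem_range hinj]
  exact finsum_curry (fun x => F (e x)) hfin

theorem norm_bd (y : mixedEmbedding.mixedSpace K) (R : ℝ) (hy : ‖y‖ ≤ R) :
    mixedEmbedding.norm y ≤ R ^ finrank ℚ K := by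
  rw [mixedEmbedding.norm_apply, ← InfinitePlace.sum_mult_eq, ← Finset.prod_pow_eq_pow_sum]
  apply Finset.prod_le_prod
  · intro w _
    exact pow_nonneg (mixedEmbedding.normAtPlace_nonneg _ _) _
  · intro w _
    apply pow_le_pow_left₀ (mixedEmbedding.normAtPlace_nonneg _ _)
    refine le_trans ?_ hy
    rw [mixedEmbedding.norm_eq_sup'_normAtPlace]
    exact Finset.le_sup' (fun w => mixedEmbedding.normAtPlace w y) (Finset.mem_univ w)

theorem absNorm_pos' (J : (Ideal (𝓞 K))⁰) : 0 < Ideal.absNorm (J : Ideal (𝓞 K)) :=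
  Ideal.absNorm_pos_of_nonZeroDivisors J

theorem natAbs_norm (a : 𝓞 K) (u : (𝓞 K)ˣ) (I J : Ideal (𝓞 K))
    (ha : I * J = Ideal.span {a}) :
    (Algebra.norm ℤ ((u : 𝓞 K) * a)).natAbs = Ideal.absNorm I * Ideal.absNorm J := by
  rw [← Ideal.absNorm_span_singleton, ← map_mul, ha]
  congr 1
  rw [Ideal.span_singleton_eq_span_singleton]
  exact (associated_isUnit_mul_left_iff u.isUnit).2 (Associated.refl _)

theorem abs_norm_rat (a : 𝓞 K) :
    |((Algebra.norm ℚ (a : K) : ℚ) : ℝ)| = ((Algebra.norm ℤ a).natAbs : ℝ) := by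
  rw [← Algebra.coe_norm_int]
  rw [Nat.cast_natAbs]
  push_cast
  rfl

omit [NumberField K] in
theorem coe_mul' (u : (𝓞 K)ˣ) (a : 𝓞 K) :
    (((u : 𝓞 K) * a : 𝓞 K) : K) = ((u : 𝓞 K) : K) * (a : K) :=
  map_mul (algebraMap (𝓞 K) K) _ _

/-- The sum over one ideal. -/
theorem sum_one {C R B : ℝ} {G : ℝ → ℂ} {H : mixedEmbedding.mixedSpace K → ℂ}
    (hH : IsH K C R B G H) (J : (Ideal (𝓞 K))⁰) (f : ℕ → ℂ) (T : ℝ) (hT : 0 < T) :
    ∑ᶠ α : (J : Ideal (𝓞 K)),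
          f ((Algebra.norm ℤ (α : 𝓞 K)).natAbs / Ideal.absNorm (J : Ideal (𝓞 K))) *
            H ((T * Ideal.absNorm (J : Ideal (𝓞 K))) ^ (-(1 / (finrank ℚ K : ℝ))) •
              mixedEmbedding K ((α : 𝓞 K) : K)) =
      ∑ᶠ I : {I : (Ideal (𝓞 K))⁰ // ClassGroup.mk0 I = (ClassGroup.mk0 J)⁻¹},
        f (Ideal.absNorm (I.1 : Ideal (𝓞 K))) * G (Ideal.absNorm (I.1 : Ideal (𝓞 K)) / T) := by
  set n := finrank ℚ K with hn
  have hn0 : 0 < n := finrank_pos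
  set NJ : ℝ := (Ideal.absNorm (J : Ideal (𝓞 K)) : ℝ) with hNJ
  have hNJ0 : 0 < NJ := Nat.cast_pos.2 (absNorm_pos' J)
  set t : ℝ := (T * NJ) ^ (-(1 / (n : ℝ))) with ht
  have ht0 : 0 < t := Real.rpow_pos_of_pos (mul_pos hT hNJ0) _
  have htn : t ^ n = (T * NJ)⁻¹ := by
    rw [ht, ← Real.rpow_natCast, ← Real.rpow_mul (mul_pos hT hNJ0).le]
    rw [show -(1 / (n : ℝ)) * (n : ℝ) = -1 by
      have : (n : ℝ) ≠ 0 := by positivity
      field_simp]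
    rw [Real.rpow_neg_one]
  choose a ha0 ha using fun I : {I : (Ideal (𝓞 K))⁰ //
    ClassGroup.mk0 I = (ClassGroup.mk0 J)⁻¹} => gen_ex J I.1 I.2
  have hm : ∀ (I : {I : (Ideal (𝓞 K))⁰ // ClassGroup.mk0 I = (ClassGroup.mk0 J)⁻¹})
      (u : (𝓞 K)ˣ), (u : 𝓞 K) * a I ∈ (J : Ideal (𝓞 K)) := by
    intro I u
    apply Ideal.mul_mem_left
    have h1 : a I ∈ Ideal.span {a I} := Ideal.mem_span_singleton_self _
    rw [← ha I] at h1
    have h2 : (I.1 : Ideal (𝓞 K)) * (J : Ideal (𝓞 K)) ≤ (J : Ideal (𝓞 K)) := Ideal.mul_le_right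
    exact h2 h1
  set F : ↥(J : Ideal (𝓞 K)) → ℂ := fun α =>
    f ((Algebra.norm ℤ (α : 𝓞 K)).natAbs / Ideal.absNorm (J : Ideal (𝓞 K))) *
            H (t • mixedEmbedding K ((α : 𝓞 K) : K)) with hF
  have hF0 : F 0 = 0 := by
    simp only [hF]
    have h1 : H (t • mixedEmbedding K (((0 : ↥(J : Ideal (𝓞 K))) : 𝓞 K) : K)) = 0 := by
      by_contra h
      have h2 := hH.pos _ t ht0 h
      simp at h2
    rw [h1, mul_zero]
  have hnat : ∀ (I : {I : (Ideal (𝓞 K))⁰ // ClassGroup.mk0 I = (ClassGroup.mk0 J)⁻¹})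
      (u : (𝓞 K)ˣ), (Algebra.norm ℤ ((u : 𝓞 K) * a I)).natAbs =
        Ideal.absNorm (I.1 : Ideal (𝓞 K)) * Ideal.absNorm (J : Ideal (𝓞 K)) :=
    fun I u => natAbs_norm (a I) u _ _ (ha I)
  have hfin : {x : {I : (Ideal (𝓞 K))⁰ // ClassGroup.mk0 I = (ClassGroup.mk0 J)⁻¹} × (𝓞 K)ˣ |
      F ⟨(x.2 : 𝓞 K) * a x.1, hm x.1 x.2⟩ ≠ 0}.Finite := by
    set X : ℕ := ⌈R ^ n * T⌉₊ with hX
    have hS : {I : {I : (Ideal (𝓞 K))⁰ // ClassGroup.mk0 I = (ClassGroup.mk0 J)⁻¹} |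
        Ideal.absNorm (I.1 : Ideal (𝓞 K)) ≤ X}.Finite :=
      Set.Finite.preimage Subtype.val_injective.injOn (Ideal.finite_setOfPred_absNorm_le₀ X)
    apply (Set.Finite.biUnion hS (t := fun I => (fun u : (𝓞 K)ˣ => (I, u)) ''
      {u : (𝓞 K)ˣ | H (t • mixedEmbedding K (((u : 𝓞 K) : K) * ((a I : 𝓞 K) : K))) ≠ 0})
      (fun I _ => (hH.fin _ t (by simpa using ha0 I) ht0).image _)).subset
    rintro ⟨I, u⟩ hx
    have h1 : H (t • mixedEmbedding K (((u : 𝓞 K) : K) * ((a I : 𝓞 K) : K))) ≠ 0 := by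
      intro h
      apply hx
      simp only [hF]
      rw [coe_mul', h, mul_zero]
    simp only [Set.mem_iUnion, Set.mem_image]
    refine ⟨I, ?_, u, h1, rfl⟩
    have h2 : ‖t • mixedEmbedding K (((u : 𝓞 K) : K) * ((a I : 𝓞 K) : K))‖ ≤ R := by
      by_contra h
      exact h1 (hH.supp _ (not_le.1 h))
    have h3 := norm_bd _ R h2
    rw [mixedEmbedding.norm_smul, mixedEmbedding.norm_eq_norm, ← coe_mul', ← hn,
      abs_of_pos ht0, htn] at h3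
    have h4 : ((|Algebra.norm ℚ (((u : 𝓞 K) * a I : 𝓞 K) : K)| : ℚ) : ℝ) =
        (Ideal.absNorm (I.1 : Ideal (𝓞 K)) : ℝ) * NJ := by
      rw [Rat.cast_abs, abs_norm_rat, hnat, Nat.cast_mul]
    rw [h4] at h3
    have h5 : (Ideal.absNorm (I.1 : Ideal (𝓞 K)) : ℝ) ≤ R ^ n * T := by
      have h6 : (T * NJ)⁻¹ * ((Ideal.absNorm (I.1 : Ideal (𝓞 K)) : ℝ) * NJ) =
        (Ideal.absNorm (I.1 : Ideal (𝓞 K)) : ℝ) / T := by
        field_simp
      rw [h6, div_le_iff₀ hT] at h3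
      exact h3
    have h7 : (Ideal.absNorm (I.1 : Ideal (𝓞 K)) : ℝ) ≤ (X : ℝ) := h5.trans (Nat.le_ceil _)
    exact_mod_cast h7
  have h1 := sum_ideal J F hF0 a ha0 ha hm hfin
  rw [h1]
  apply finsum_congr
  intro I
  have h2 : ∀ u : (𝓞 K)ˣ, F ⟨(u : 𝓞 K) * a I, hm I u⟩ =
      f (Ideal.absNorm (I.1 : Ideal (𝓞 K))) *
        H (t • mixedEmbedding K (((u : 𝓞 K) : K) * ((a I : 𝓞 K) : K))) := by
    intro u
    simp only [hF]
    rw [hnat, Nat.mul_div_cancel _ (absNorm_pos' J), coe_mul']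
  rw [finsum_congr h2, ← mul_finsum]
  congr 1
  rw [hH.sum _ t (by simpa using ha0 I) ht0]
  congr 1
  have h3 := hnat I 1
  rw [Units.val_one, one_mul] at h3
  rw [← hn, htn, abs_norm_rat, h3]
  push_cast
  rw [← hNJ]
  field_simp

theorem unfold : Unfold := by
  intro K _ _ C R B G H hG hH b hb f T hT
  have hS := Ideal.finite_setOfPred_absNorm_le₀ (S := 𝓞 K) ⌊4 * T⌋₊
  set S : Finset (Ideal (𝓞 K))⁰ := hS.toFinset with hSdef
  set g : (Ideal (𝓞 K))⁰ → ℂ := fun I =>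
    f (Ideal.absNorm (I : Ideal (𝓞 K))) * G (Ideal.absNorm (I : Ideal (𝓞 K)) / T) with hg
  have hmemS : ∀ I : (Ideal (𝓞 K))⁰, I ∈ S ↔ Ideal.absNorm (I : Ideal (𝓞 K)) ≤ ⌊4 * T⌋₊ := by
    intro I
    simp [hSdef]
  have hsupp : ∀ I : (Ideal (𝓞 K))⁰, g I ≠ 0 → I ∈ S := by
    intro I hI
    rw [hmemS]
    by_contra h
    apply hI
    simp only [hg]
    have h1 : 4 * T < (Ideal.absNorm (I : Ideal (𝓞 K)) : ℝ) := by
      rw [not_le, Nat.floor_lt (by positivity)] at h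
      exact h
    rw [hG.supp _ (Or.inr ?_), mul_zero]
    rw [le_div_iff₀ hT]
    exact h1.le
  have hL : ∑ m ∈ Icc 1 ⌊4 * T⌋₊, (idc K m : ℂ) * f m * G (m / T) = ∑ I ∈ S, g I := by
    rw [← Finset.sum_fiberwise_of_maps_to (s := S) (t := Icc 1 ⌊4 * T⌋₊)
      (g := fun I : (Ideal (𝓞 K))⁰ => Ideal.absNorm (I : Ideal (𝓞 K)))]
    · apply Finset.sum_congr rfl
      intro m hm
      rw [Finset.mem_Icc] at hm
      have h1 : ∀ I ∈ S.filter (fun I : (Ideal (𝓞 K))⁰ => Ideal.absNorm (I : Ideal (𝓞 K)) = m),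
          g I = f m * G (m / T) := by
        intro I hI
        rw [Finset.mem_filter] at hI
        simp only [hg, hI.2]
      rw [Finset.sum_congr rfl h1, Finset.sum_const, nsmul_eq_mul, ← mul_assoc]
      congr 3
      unfold idc
      have h2 : ∀ I : Ideal (𝓞 K), Ideal.absNorm I = m → I ∈ (Ideal (𝓞 K))⁰ := by
        intro I hI
        apply mem_nonZeroDivisors_of_ne_zero
        intro h
        rw [h] at hI
        simp at hI
        omega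
      have h3 : Nat.card {I : Ideal (𝓞 K) // Ideal.absNorm I = m} =
          Nat.card {I : (Ideal (𝓞 K))⁰ // I ∈
            S.filter (fun I : (Ideal (𝓞 K))⁰ => Ideal.absNorm (I : Ideal (𝓞 K)) = m)} := by
        apply Nat.card_congr
        refine ⟨fun I => ⟨⟨I.1, h2 I.1 I.2⟩, ?_⟩, fun I => ⟨I.1.1, ?_⟩, fun I => rfl, fun I => rfl⟩
        · rw [Finset.mem_filter, hmemS]
          exact ⟨by simp only; rw [I.2]; exact hm.2, I.2⟩
        · exact (Finset.mem_filter.1 I.2).2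
      rw [h3, Nat.card_eq_fintype_card, Fintype.card_coe]
    · intro I hI
      rw [hmemS] at hI
      rw [Finset.mem_Icc]
      exact ⟨absNorm_pos' I, hI⟩
  rw [hL]
  rw [← Finset.sum_fiberwise_of_maps_to (s := S) (t := (Finset.univ : Finset (ClassGroup (𝓞 K))))
      (g := fun I => (ClassGroup.mk0 I)⁻¹) (fun _ _ => Finset.mem_univ _)]
  apply Finset.sum_congr rfl
  intro c _
  rw [sum_one hH (b c) f T hT, hb c]
  have h1 : ∑ᶠ I : {I : (Ideal (𝓞 K))⁰ // ClassGroup.mk0 I = c⁻¹}, g I.1 =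
      ∑ᶠ I ∈ {I : (Ideal (𝓞 K))⁰ | ClassGroup.mk0 I = c⁻¹}, g I :=
    finsum_set_coe_eq_finsum_mem {I : (Ideal (𝓞 K))⁰ | ClassGroup.mk0 I = c⁻¹}
  have h2 : ∑ᶠ I ∈ {I : (Ideal (𝓞 K))⁰ | ClassGroup.mk0 I = c⁻¹}, g I =
      ∑ I ∈ S.filter (fun I : (Ideal (𝓞 K))⁰ => (ClassGroup.mk0 I)⁻¹ = c), g I := by
    apply finsum_mem_eq_sum_of_inter_support_eq
    ext I
    simp only [Set.mem_inter_iff, Finset.coe_filter, Set.mem_ofPred_eq, Function.mem_support]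
    constructor
    · rintro ⟨h3, h4⟩
      exact ⟨⟨hsupp I h4, by rw [h3, inv_inv]⟩, h4⟩
    · rintro ⟨⟨_, h3⟩, h4⟩
      exact ⟨by rw [← h3, inv_inv], h4⟩
  rw [← h2, ← h1]

end

end Pool.Agent.Helper24.NF
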